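import Pool.Agent.H13.DR.Fin
import Pool.Agent.H13.Steklov.Final

/-!
# MP_0a0660_gt: the answer to Q1 for the three problems (D), (R), (S)

(D), (R): yes, for every compact smooth manifold `M` of dimension `d + 3` with boundary and every `k`. (S): no, for `M = [0,1] × T²` and `k = 1`.
-/

open Set
open Pool.Agent.H13

namespace Pool.Agent.Results.MP_0a0660_gt.Complete

/-- Problems (D) (`X = true`) and (R) (`X = false`): any two metrics on `M` with `N_X ≥ k` are joined by a curve of metrics with `N_X ≥ k`. -/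
def Connected {d m : ℕ} (M : DR.Mfd d m) (X : Bool) (k : ℕ) : Prop :=
  ∀ G₀ G₁ : DR.Pt m → Matrix (Fin m) (Fin m) ℝ, DR.IsMetric M G₀ → DR.IsMetric M G₁ → M.AtLeast X G₀ k → M.AtLeast X G₁ k →
    ∃ γ : ℝ → DR.Pt m → Matrix (Fin m) (Fin m) ℝ, γ 0 = G₀ ∧ γ 1 = G₁ ∧ M.IsCurve γ ∧ ∀ t ∈ Icc (0 : ℝ) 1, M.AtLeast X (γ t) k

/-- Problem (S) on `M = [0,1] × T²`: any two metrics on `M` for which (S) is defined and `N_S ≥ k` are joined by a curve of metrics for which (S) is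
defined. -/
def SteklovConnected (k : ℕ) : Prop :=
  ∀ g₀ g₁ : Steklov.Pt → Matrix (Fin 3) (Fin 3) ℝ, Steklov.IsMetric g₀ → Steklov.IsMetric g₁ → Steklov.SDefined g₀ → Steklov.SDefined g₁ →
    Steklov.NegSteklov g₀ k → Steklov.NegSteklov g₁ k →
    ∃ γ : ℝ → Steklov.Pt → Matrix (Fin 3) (Fin 3) ℝ, Steklov.IsCurve γ ∧ (∀ p ∈ Steklov.slab, γ 0 p = g₀ p) ∧
      (∀ p ∈ Steklov.slab, γ 1 p = g₁ p) ∧ ∀ t ∈ Icc (0 : ℝ) 1, Steklov.SDefined (γ t)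

theorem result : (∀ (d m : ℕ) (M : DR.Mfd d m) (X : Bool) (k : ℕ), Connected M X k) ∧ ¬ SteklovConnected 1 := by
  refine ⟨fun d m M X k G₀ G₁ h₀ h₁ => DR.connected M X k h₀ h₁, fun h => ?_⟩
  obtain ⟨g₀, g₁, m₀, m₁, s₀, s₁, n₀, n₁, hn⟩ := Steklov.main
  exact hn (h g₀ g₁ m₀ m₁ s₀ s₁ n₀ n₁)

end Pool.Agent.Results.MP_0a0660_gt.Complete
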