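import Pool.Agent.H13.DR.Fin

/-!
# MP_0a0660_gt, problems (D) and (R): metrics with at least `k` negative eigenvalues can be joined

For every compact smooth manifold `M` of dimension `d + 3` with boundary, `X = D` (`X = true`) or `X = R` (`X = false`) and every `k`, any two metrics on `M`
with `N_X ≥ k` are joined by a curve of metrics with `N_X ≥ k`.
-/

open Set

namespace Pool.Agent.Results.MP_0a0660_gt.DirichletRobinConnected

open Pool.Agent.H13.DR

theorem result {d m : ℕ} (M : Mfd d m) (X : Bool) (k : ℕ) (G₀ G₁ : Pt m → Matrix (Fin m) (Fin m) ℝ)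
    (hG₀ : IsMetric M G₀) (hG₁ : IsMetric M G₁) (hk₀ : M.AtLeast X G₀ k) (hk₁ : M.AtLeast X G₁ k) :
    ∃ γ : ℝ → Pt m → Matrix (Fin m) (Fin m) ℝ, γ 0 = G₀ ∧ γ 1 = G₁ ∧ M.IsCurve γ ∧
      ∀ t ∈ Icc (0 : ℝ) 1, M.AtLeast X (γ t) k :=
  connected M X k hG₀ hG₁ hk₀ hk₁

end Pool.Agent.Results.MP_0a0660_gt.DirichletRobinConnected
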