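import Pool.Agent.H13.Steklov.Final

/-!
# MP_0a0660_gt: two metrics with negative conformal Steklov eigenvalues that cannot be joined

`M = [0,1] × T²`, problem (S), `k = 1`. There are smooth metrics `g₀`, `g₁` on `M` for which problem
(S) is defined and `N_S ≥ 1`, and no curve of metrics joins them along which problem (S) is defined.
-/

open Set

namespace Pool.Agent.Results.MP_0a0660_gt.SteklovNotConnected

open Pool.Agent.H13.Steklov

theorem result : ∃ g₀ g₁ : Pt → Matrix (Fin 3) (Fin 3) ℝ, IsMetric g₀ ∧ IsMetric g₁ ∧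
    SDefined g₀ ∧ SDefined g₁ ∧ NegSteklov g₀ 1 ∧ NegSteklov g₁ 1 ∧
    ¬ ∃ γ : ℝ → Pt → Matrix (Fin 3) (Fin 3) ℝ, IsCurve γ ∧ (∀ p ∈ slab, γ 0 p = g₀ p) ∧
      (∀ p ∈ slab, γ 1 p = g₁ p) ∧ ∀ t ∈ Icc (0 : ℝ) 1, SDefined (γ t) :=
  main

end Pool.Agent.Results.MP_0a0660_gt.SteklovNotConnected
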